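import Pool.Agent.H59.LIN.Targets

/-!
# Realizing weight systems over rings by Vassiliev invariants (`MP_559314_gt`): row CWF: the even
coefficients of the Conway polynomial modulo two
-/

set_option autoImplicit false

open Finset Polynomial

namespace Pool.Agent.H11.LIN

open Pool.Agent.H59.LIN

theorem ext_zero {n : ℕ} (w : SWd n) (u : Wd n) : ext (fun _ : Wd n => (0 : ℤ)) u w = 0 := by
  induction w generalizing u with
  | nil => rfl
  | cons x w ih =>
    obtain ⟨i, s⟩ := x
    cases s with
    | none =>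
      change ext _ (u ++ [(i, true)]) w - ext _ (u ++ [(i, false)]) w = 0
      rw [ih, ih, sub_zero]
    | some b =>
      change ext _ (u ++ [(i, b)]) w = 0
      exact ih _

theorem Dif_comb {α : Type} [DecidableEq α] (A : Finset α) (F G H : (α → Bool) → ℤ)
    (ε : α → Bool) : Dif A (fun ε => F ε - G ε - 2 * H ε) ε =
      Dif A F ε - Dif A G ε - 2 * Dif A H ε := by
  unfold Dif
  rw [Finset.mul_sum, ← Finset.sum_sub_distrib, ← Finset.sum_sub_distrib]
  refine Finset.sum_congr rfl fun S _ => ?_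
  ring

theorem cast_pow {α : Type} [DecidableEq α] (F : SF α ℤ) (G : SF α ℚ)
    (h : ∀ A, ((F A : ℤ) : ℚ) = G A) (k : ℕ) (A : Finset α) :
    (((F ^ k) A : ℤ) : ℚ) = (G ^ k) A := by
  induction k generalizing A with
  | zero =>
    rw [pow_zero, pow_zero, SF.one_def, SF.one_def]
    split_ifs <;> simp
  | succ k ih =>
    rw [pow_succ, pow_succ, SF.mul_def, SF.mul_def]
    push_cast
    refine Finset.sum_congr rfl fun B _ => ?_
    rw [ih, h]

theorem pf_CWF (hEXI : Pool.Agent.H59.LIN.T_EXI) (hCWU : Pool.Agent.H59.LIN.T_CWU)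
    (hFB0 : Pool.Agent.H59.LIN.T_FB0) (hSYM : Pool.Agent.H59.LIN.T_SYM)
    (hCAB : Pool.Agent.H59.LIN.T_CAB) (hCAP : Pool.Agent.H59.LIN.T_CAP)
    (hBR : Pool.Agent.H59.LIN.T_BR) (hCMC : Pool.Agent.H59.LIN.T_CMC) :
    Pool.Agent.H59.LIN.T_CWF := by
  have hunit : IsUnit (1 - sK * dK) := by
    rw [PowerSeries.isUnit_iff_constantCoeff]
    have hs : PowerSeries.constantCoeff sK = 0 := by
      unfold sK
      exact PowerSeries.constantCoeff_X
    rw [map_sub, map_one, map_mul, hs, zero_mul, sub_zero]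
    exact isUnit_one
  obtain ⟨κ', hκ⟩ := hunit.exists_right_inv
  obtain ⟨T, hT⟩ := hEXI KK sK dK κ' hκ
  intro c hc k hk
  obtain ⟨t, rfl⟩ : ∃ t, k = t + 1 := ⟨k - 1, by omega⟩
  rcases Nat.eq_zero_or_pos t with rfl | ht
  · refine ⟨fun _ _ => 0, fun _ _ _ _ => rfl, fun n w _ _ => ext_zero w [], fun n w _ => ?_⟩
    rw [show 2 * (0 + 1) = 2 from rfl, zero_add, Ring.choose_one_right, sub_self, sub_zero]
    exact dvd_zero 2
  · obtain ⟨f, hf1, hf2, hf3⟩ := hFB0 T hT t ht
    obtain ⟨a1, a2, a3⟩ := hSYM T hT (2 * (t + 1)) 0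
    obtain ⟨b1, b2, b3⟩ := hSYM T hT 2 0
    refine ⟨fun n w => pc T (2 * (t + 1)) 0 n w - Ring.choose (pc T 2 0 n w) (t + 1) -
      2 * f n w, ?_, ?_, ?_⟩
    · intro x y hxy hx
      have e1 := a1 x y hxy hx
      have e2 := b1 x y hxy hx
      have e3 := hf1 x y hxy hx
      simp only [e1, e2, e3]
    · intro n w hw hd
      obtain ⟨D, q, hq, hg⟩ := hCMC.2.1 n w hw
      have hdb := hCMC.1 n w (dbl w) D q hw hq hg
      rw [hBR.1 ℤ n _ w (dbl w) q (fun _ => true) hq hdb]
      have c1 := hCAB (Fin (dbl w)) (cb (pc T 2 0 n) w q) 2 0 (t + 1) (by norm_num)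
        (b2 n w (dbl w) q hw hq hdb)
      simp only [add_zero] at c1
      have d1 := a2 n w (dbl w) q hw hq hdb
      have d2 := hf2 n w (dbl w) q hw hq hdb
      have hcb : cb (fun w => pc T (2 * (t + 1)) 0 n w - Ring.choose (pc T 2 0 n w) (t + 1) -
          2 * f n w) w q = fun ε => cb (pc T (2 * (t + 1)) 0 n) w q ε -
            Ring.choose (cb (pc T 2 0 n) w q ε) (t + 1) - 2 * cb (f n) w q ε := rfl
      have hmb : mb (0, t) = 2 * (t + 1) := by
        unfold mb
        ring
      rw [hcb, Dif_comb]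
      have hcard : (univ : Finset (Fin (dbl w))).card = dbl w := by
        rw [Finset.card_univ, Fintype.card_fin]
      rcases Nat.lt_or_ge (2 * (t + 1)) (dbl w) with hlt | hge
      · rw [d1 univ _ (by rw [hcard]; exact hlt), c1.1 univ _ (by rw [hcard]; exact hlt),
          d2 univ _ (by rw [hcard, hmb]; exact hlt)]
        ring
      · have heq : dbl w = 2 * (t + 1) := by omega
        have hcd : (univ : Finset (Fin (dbl w))).card = 2 * (t + 1) := hcard.trans heq
        have e1 := a3 n w (dbl w) D q hw hq hg univ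
        have e2 := hf3 n w (dbl w) D q hw hq hg univ
        have e3 := c1.2 univ
        have e4 := cast_pow (sy (cb (pc T 2 0 n) w q) 2) (eta D 2 0)
          (fun A => b3 n w (dbl w) D q hw hq hg A) (t + 1) univ
        rw [← e3] at e4
        rw [hmb] at e2
        unfold sy at e1 e2 e4
        simp only [hcd, if_true] at e1 e2 e4
        have e5 : phi D (0, t) univ = 1 / 2 * (eta D (2 * (t + 1)) 0 univ -
            ((t + 1).factorial : ℚ)⁻¹ * ((eta D 2 0) ^ (t + 1)) univ) := by
          unfold phi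
          rw [if_pos rfl, if_neg (by simpa using ht.ne'), SF.smul_def']
          have e6 : ∀ (f g : SF (Fin (dbl w)) ℚ) (A : Finset (Fin (dbl w))),
              (f - g) A = f A - g A := fun _ _ _ => rfl
          rw [e6, SF.smul_def']
          rfl
        have hfac : ((t + 1).factorial : ℚ) ≠ 0 := by
          exact_mod_cast (Nat.factorial_pos (t + 1)).ne'
        have e7 : ((Dif univ (fun ε => Ring.choose (cb (pc T 2 0 n) w q ε) (t + 1))
            (fun _ => true) : ℤ) : ℚ) =
            ((t + 1).factorial : ℚ)⁻¹ * ((eta D 2 0) ^ (t + 1)) univ := by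
          rw [← e4]
          push_cast
          rw [← mul_assoc, inv_mul_cancel₀ hfac, one_mul]
        have e8 : ((Dif univ (cb (pc T (2 * (t + 1)) 0 n) w q) (fun _ => true) -
            Dif univ (fun ε => Ring.choose (cb (pc T 2 0 n) w q ε) (t + 1)) (fun _ => true) -
            2 * Dif univ (cb (f n) w q) (fun _ => true) : ℤ) : ℚ) = 0 := by
          push_cast
          rw [e1, e7, e2, e5]
          ring
        exact_mod_cast e8
    · intro n w _
      rw [hCWU T hT c hc, hCWU T hT c hc]
      exact ⟨f n w, by ring⟩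

end Pool.Agent.H11.LIN
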