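import Pool.Agent.H59.LIN.Targets

/-!
# Realizing weight systems over rings by Vassiliev invariants (`MP_559314_gt`): row S0: the
HOMFLYPT polynomial at `s = 0`
-/

set_option autoImplicit false

open Finset Polynomial

namespace Pool.Agent.H11.LIN

open Pool.Agent.H59.LIN

theorem run_append {n : ℕ} {α : Type} (u v : List (Fin n × α)) (p : Fin (n + 1)) :
    run (u ++ v) p = run v (run u p) := by
  induction u generalizing p with
  | nil => rfl
  | cons x u ih => exact ih (tr x.1 p)

theorem run_cons {n : ℕ} {α : Type} (x : Fin n × α) (v : List (Fin n × α)) (p : Fin (n + 1)) :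
    run (x :: v) p = run v (tr x.1 p) := rfl

theorem tr_tr {n : ℕ} (i : Fin n) (p : Fin (n + 1)) : tr i (tr i p) = p :=
  Equiv.swap_apply_self _ _ _

theorem tr_far {n : ℕ} (i j : Fin n) (h : (i : ℕ) + 1 < j ∨ (j : ℕ) + 1 < i)
    (p : Fin (n + 1)) : tr i (tr j p) = tr j (tr i p) := by
  have h1 : Equiv.Perm.Disjoint (tr i) (tr j) := by
    refine Equiv.Perm.disjoint_swap_swap ?_
    simp only [List.nodup_cons, List.mem_cons, List.not_mem_nil, or_false, not_or, not_false_eq_true,
      List.nodup_nil, and_true, Fin.ext_iff, Fin.val_castSucc, Fin.val_succ]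
    omega
  have h2 := h1.commute
  exact Equiv.congr_fun h2 p

theorem tr_braid {n : ℕ} (i j : Fin n) (h : (j : ℕ) = i + 1) (p : Fin (n + 1)) :
    tr i (tr j (tr i p)) = tr j (tr i (tr j p)) := by
  have hs : i.succ = j.castSucc := by
    ext
    simp [h]
  have h1 : i.castSucc ≠ i.succ := by
    intro h2
    have := congrArg Fin.val h2
    simp at this
  have h2 : j.castSucc ≠ j.succ := by
    intro h2
    have := congrArg Fin.val h2
    simp at this
  have h3 : i.castSucc ≠ j.succ := by
    intro h2
    have := congrArg Fin.val h2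
    simp [h] at this
    omega
  unfold tr
  rw [hs] at h1 ⊢
  generalize i.castSucc = a at *
  generalize j.castSucc = b at *
  generalize j.succ = c at *
  by_cases ha : p = a
  · subst ha
    rw [Equiv.swap_apply_left, Equiv.swap_apply_left, Equiv.swap_apply_of_ne_of_ne h3.symm h2.symm,
      Equiv.swap_apply_of_ne_of_ne h1 h3, Equiv.swap_apply_left, Equiv.swap_apply_left]
  · by_cases hb : p = b
    · subst hb
      rw [Equiv.swap_apply_right, Equiv.swap_apply_of_ne_of_ne h1 h3, Equiv.swap_apply_left,
        Equiv.swap_apply_left, Equiv.swap_apply_of_ne_of_ne h3.symm h2.symm, Equiv.swap_apply_right]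
    · by_cases hc : p = c
      · subst hc
        rw [Equiv.swap_apply_of_ne_of_ne h3.symm h2.symm, Equiv.swap_apply_right,
          Equiv.swap_apply_right, Equiv.swap_apply_of_ne_of_ne h1 h3]
      · rw [Equiv.swap_apply_of_ne_of_ne ha hb, Equiv.swap_apply_of_ne_of_ne hb hc,
          Equiv.swap_apply_of_ne_of_ne ha hb, Equiv.swap_apply_of_ne_of_ne hb hc]

theorem pf_S0 (hIND : Pool.Agent.H59.LIN.T_IND) (hNCL : Pool.Agent.H59.LIN.T_NCL) :
    Pool.Agent.H59.LIN.T_S0 := by
  intro T hT
  obtain ⟨h1, h2, h3, h4, h5⟩ := hNCL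
  have hs : PowerSeries.constantCoeff sK = 0 := by
    unfold sK
    exact PowerSeries.constantCoeff_X
  have hd : PowerSeries.constantCoeff dK = X := by
    unfold dK
    exact PowerSeries.constantCoeff_C _
  have hsk : ∀ n (u v : Wd n) (i : Fin n),
      PowerSeries.constantCoeff (T n (u ++ (i, true) :: v)) =
        PowerSeries.constantCoeff (T n (u ++ (i, false) :: v)) := by
    intro n u v i
    rw [hT.skein, map_add, map_mul, map_sub, map_mul, map_mul, hs, map_one]
    ring
  have hr : ∀ n (u v : Wd n) (i : Fin n), run (u ++ (i, true) :: v) = run (u ++ (i, false) :: v) := by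
    intro n u v i
    funext p
    rw [run_append, run_append, run_cons, run_cons]
  refine hIND (fun n w => PowerSeries.constantCoeff (T n w) = X ^ (ncl (run w) - 1)) ?_
  refine ⟨?_, ?_, ?_, ?_, ?_, ?_, ?_, ?_, ?_⟩
  · have h6 : ncl (run ([] : Wd 0)) = 1 := by
      refine h5 Bool 0 [] fun p => ⟨0, ?_⟩
      exact Subsingleton.elim (α := Fin 1) _ _
    rw [hT.one, h6, map_one, Nat.sub_self, pow_zero]
  · intro n w h
    rw [hT.dis, map_mul, hd, h, h1, ← pow_succ']
    congr 1
    have := h4 n w
    omega
  · intro n w b h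
    rw [hT.stab, h, h2]
  · intro n u v h
    rw [← hT.conj, h, h3]
  · intro n u v i b h
    have h6 : run (u ++ (i, b) :: (i, !b) :: v) = run (u ++ v) := by
      funext p
      rw [run_append, run_append, run_cons, run_cons, tr_tr]
    rw [hT.cancel, h, h6]
  · intro n u v i j b c hij h
    have h6 : run (u ++ (j, c) :: (i, b) :: v) = run (u ++ (i, b) :: (j, c) :: v) := by
      funext p
      rw [run_append, run_append, run_cons, run_cons, run_cons, run_cons, tr_far i j hij]
    rw [h6, ← h]
    rcases hij with h7 | h7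
    · rw [hT.far n u v i j b c h7]
    · rw [hT.far n u v j i c b h7]
  · intro n u v i j hij h
    have h6 : run (u ++ (i, true) :: (j, true) :: (i, true) :: v) =
        run (u ++ (j, true) :: (i, true) :: (j, true) :: v) := by
      funext p
      rw [run_append, run_append]
      simp only [run_cons]
      rw [tr_braid i j hij]
    rw [← h6, ← h, hT.braid n u v i j hij]
  · intro n u v i h _
    rw [hsk, hr, h]
  · intro n u v i h _
    rw [← hsk, ← hr, h]

end Pool.Agent.H11.LIN
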